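import Pool.Agent.H93.DE.Targets

/-!
# BAD: the bad places of one octave
-/

set_option autoImplicit false

open Finset Pool.Agent.H18.MR Pool.Agent.H93.DE

namespace Pool.Agent.H62.DE.BADx

theorem count_succ (p a n : ℕ) :
    ((range n).filter fun j => p ∣ a + 1 + j).card + a / p = (a + n) / p := by
  induction n with
  | zero => simp
  | succ n ih =>
    rw [range_add_one, filter_insert, ← add_assoc, Nat.succ_div]
    by_cases h : p ∣ a + 1 + n
    · have h' : p ∣ a + n + 1 := by
        rwa [show a + n + 1 = a + 1 + n by ring]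
      rw [if_pos h, if_pos h', card_insert_of_notMem (by simp)]
      omega
    · have h' : ¬ p ∣ a + n + 1 := by
        rwa [show a + n + 1 = a + 1 + n by ring]
      rw [if_neg h, if_neg h']
      omega

theorem count_eq (p r n : ℕ) (hp : 0 < p) :
    ((range n).filter fun j => p ∣ r + j).card + (r + p - 1) / p = (r + p - 1 + n) / p := by
  rw [← count_succ p (r + p - 1) n]
  congr 2
  apply filter_congr
  intro j _
  rw [show r + p - 1 + 1 + j = (r + j) + p by omega]
  exact (Nat.dvd_add_left (dvd_refl p)).symm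

theorem count_le (p r n : ℕ) (hp : 0 < p) :
    (p : ℝ) * ((range n).filter fun j => p ∣ r + j).card ≤ n + p := by
  have h1 := count_eq p r n hp
  rw [Nat.add_div hp] at h1
  have h2 : ((range n).filter fun j => p ∣ r + j).card ≤ n / p + 1 := by
    split_ifs at h1 <;> omega
  have h3 : p * ((range n).filter fun j => p ∣ r + j).card ≤ n + p := by
    calc p * ((range n).filter fun j => p ∣ r + j).card ≤ p * (n / p + 1) :=
          Nat.mul_le_mul_left _ h2
      _ = p * (n / p) + p := by ring
      _ ≤ n + p := by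
        have := Nat.mul_div_le n p
        omega
  exact_mod_cast h3

theorem count_self (p j : ℕ) (hp : 0 < p) :
    ((range p).filter fun r => p ∣ r + j).card = 1 := by
  have h1 := count_eq p j p hp
  rw [Nat.add_div_right _ hp] at h1
  have h2 : ((range p).filter fun r => p ∣ r + j) = (range p).filter fun r => p ∣ j + r := by
    apply filter_congr
    intro r _
    rw [add_comm]
  rw [h2]
  omega

theorem dvd_mod_iff (p P n j : ℕ) (h : p ∣ P) : p ∣ n + j ↔ p ∣ n % P + j := by
  have h1 : n + j = P * (n / P) + (n % P + j) := by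
    have := Nat.div_add_mod n P
    omega
  rw [h1]
  exact (Nat.dvd_add_right (h.mul_right _))

section

variable {γ : Type} {K m : ℕ} (g : ℕ → ℕ → (Fin (2 * K * 2 ^ m) → γ) → ℝ)

/-- the part of one prime number -/
noncomputable def tt (w : Fin (2 * K * 2 ^ m) → γ) (p r : ℕ) : ℝ :=
  (∑ j ∈ range (K * 2 ^ m), ((if p ∣ r + j then (p : ℝ) else 0) - 1) * g p j w) /
    ((oct m).card * (K * 2 ^ m))

theorem stat_eq (w : Fin (2 * K * 2 ^ m) → γ) (n : ℕ) :
    stat K m g n w = ∑ p ∈ oct m, tt g w p (n % p) := by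
  unfold stat tt
  rw [sum_div]
  apply sum_congr rfl
  intro p _
  congr 1
  apply sum_congr rfl
  intro j _
  have h := dvd_mod_iff p p n j dvd_rfl
  by_cases h1 : p ∣ n + j
  · rw [if_pos h1, if_pos (h.1 h1)]
  · rw [if_neg h1, if_neg fun h2 => h1 (h.2 h2)]

theorem stat_mod (w : Fin (2 * K * 2 ^ m) → γ) (n : ℕ) :
    stat K m g (n % pr m) w = stat K m g n w := by
  unfold stat
  congr 1
  apply sum_congr rfl
  intro p hp
  apply sum_congr rfl
  intro j _
  have h := dvd_mod_iff p (pr m) n j (Finset.dvd_prod_of_mem _ hp)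
  by_cases h1 : p ∣ n + j
  · rw [if_pos h1, if_pos (h.1 h1)]
  · rw [if_neg h1, if_neg fun h2 => h1 (h.2 h2)]

theorem tt_bound (w : Fin (2 * K * 2 ^ m) → γ) (hK : 0 < K) (hg : ∀ p j w, |g p j w| ≤ 1)
    {p : ℕ} (hp : p ∈ oct m) (r : ℕ) : |tt g w p r| ≤ 4 / (oct m).card := by
  have hp' := hp
  unfold oct at hp'
  rw [mem_filter, mem_Ioc] at hp'
  obtain ⟨⟨-, hp2⟩, hpp⟩ := hp'
  have hcard : (0 : ℝ) < (oct m).card := by
    have : 0 < (oct m).card := card_pos.2 ⟨p, hp⟩
    exact_mod_cast this
  have hn : (0 : ℝ) < K * 2 ^ m := by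
    have : (0 : ℝ) < K := by exact_mod_cast hK
    positivity
  have h1 : |∑ j ∈ range (K * 2 ^ m), ((if p ∣ r + j then (p : ℝ) else 0) - 1) * g p j w| ≤
      4 * (K * 2 ^ m) := by
    calc |∑ j ∈ range (K * 2 ^ m), ((if p ∣ r + j then (p : ℝ) else 0) - 1) * g p j w|
        ≤ ∑ j ∈ range (K * 2 ^ m), |((if p ∣ r + j then (p : ℝ) else 0) - 1) * g p j w| :=
          abs_sum_le_sum_abs _ _
      _ ≤ ∑ j ∈ range (K * 2 ^ m), ((if p ∣ r + j then (p : ℝ) else 0) + 1) := by
          apply sum_le_sum
          intro j _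
          rw [abs_mul]
          have h2 : |(if p ∣ r + j then (p : ℝ) else 0) - 1| ≤
              (if p ∣ r + j then (p : ℝ) else 0) + 1 := by
            have h3 : 0 ≤ (if p ∣ r + j then (p : ℝ) else 0) := by
              split_ifs <;> positivity
            rw [abs_le]
            constructor <;> linarith
          calc _ ≤ ((if p ∣ r + j then (p : ℝ) else 0) + 1) * 1 :=
                mul_le_mul h2 (hg p j w) (abs_nonneg _) ((abs_nonneg _).trans h2)
            _ = _ := mul_one _
      _ = p * ((range (K * 2 ^ m)).filter fun j => p ∣ r + j).card + K * 2 ^ m := by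
          rw [sum_add_distrib, ← sum_filter, sum_const, sum_const, card_range]
          simp [mul_comm]
      _ ≤ (K * 2 ^ m + p) + K * 2 ^ m := by
          have := count_le p r (K * 2 ^ m) hpp.pos
          push_cast at this
          linarith
      _ ≤ 4 * (K * 2 ^ m) := by
          have h3 : (p : ℝ) ≤ 2 * 2 ^ m := by
            have : p ≤ 2 * 2 ^ m := by rw [← pow_succ']; exact hp2
            exact_mod_cast this
          have h4 : (1 : ℝ) ≤ K := by exact_mod_cast hK
          have h5 : (2 : ℝ) ^ m ≤ K * 2 ^ m := le_mul_of_one_le_left (by positivity) h4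
          linarith
  unfold tt
  rw [abs_div, abs_of_pos (mul_pos hcard hn), div_le_div_iff₀ (mul_pos hcard hn) hcard]
  calc _ ≤ 4 * (K * 2 ^ m) * ((oct m).card : ℝ) := mul_le_mul_of_nonneg_right h1 hcard.le
    _ = _ := by ring

theorem tt_mean (w : Fin (2 * K * 2 ^ m) → γ) {p : ℕ} (hp : p ∈ oct m) :
    ∑ r ∈ range p, tt g w p r = 0 := by
  unfold oct at hp
  rw [mem_filter] at hp
  unfold tt
  rw [← sum_div, sum_comm]
  have h1 : ∑ j ∈ range (K * 2 ^ m), ∑ r ∈ range p,
      ((if p ∣ r + j then (p : ℝ) else 0) - 1) * g p j w = 0 := by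
    apply sum_eq_zero
    intro j _
    rw [← sum_mul, sum_sub_distrib, ← sum_filter, sum_const, sum_const, count_self p j hp.2.pos,
      card_range]
    simp
  rw [h1, zero_div]

end

/-- the number of the places modulo `pr m` where the statistic is large -/
theorem card_stat (hHOE : T_HOE) {γ : Type} {K m : ℕ}
    (g : ℕ → ℕ → (Fin (2 * K * 2 ^ m) → γ) → ℝ) (w : Fin (2 * K * 2 ^ m) → γ) (hK : 0 < K)
    (hg : ∀ p j w, |g p j w| ≤ 1) (ε : ℝ) (hε : 0 < ε) (hc : 0 < (oct m).card) :
    (((range (pr m)).filter fun r => ε < |stat K m g r w|).card : ℝ) ≤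
      2 * Real.exp (-(ε ^ 2 * (oct m).card / 32)) * pr m := by
  have hc' : (0 : ℝ) < (oct m).card := by exact_mod_cast hc
  have h := hHOE (oct m) (tt g w) (4 / (oct m).card) ε
    (fun p hp => by
      unfold oct at hp
      exact (mem_filter.1 hp).2) (by positivity) hε.le
    (fun p hp r _ => tt_bound g w hK hg hp r) (fun p hp => tt_mean g w hp)
  have h1 : ε ^ 2 / (2 * (4 / ((oct m).card : ℝ)) ^ 2 * (oct m).card) =
      ε ^ 2 * (oct m).card / 32 := by
    field_simp
    ring
  rw [h1] at h
  have h2 : (∏ p ∈ oct m, (p : ℝ)) = (pr m : ℝ) := by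
    unfold pr
    push_cast
    rfl
  rw [h2] at h
  simp only [stat_eq]
  exact h

end Pool.Agent.H62.DE.BADx

namespace Pool.Agent.H62.DE

open BADx

/-- BAD -/
theorem pf_BAD (hUNI : T_UNI) (hEVT : T_EVT) (hHOE : T_HOE) : T_BAD := by
  classical
  intro γ _ _ N K D m _ x ε G hε hK hG hN hpos
  have hc : 0 < (oct m).card := by
    by_contra hcon
    have h0 : (oct m).card = 0 := by omega
    rw [h0] at hpos
    have h1 : 0 < Real.log 2 := Real.log_pos (by norm_num)
    have h2 : 0 ≤ (D : ℝ) * m := by positivity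
    have h3 : 0 < Real.log 2 * (D * m + 1) := mul_pos h1 (by linarith)
    simp at hpos
    linarith
  have hM0 : primorial (2 ^ m) ≠ 0 := (primorial_pos _).ne'
  have hP0 : pr m ≠ 0 := by
    unfold pr
    rw [Finset.prod_ne_zero_iff]
    intro p hp
    unfold oct at hp
    exact (mem_filter.1 hp).2.pos.ne'
  haveI : NeZero (primorial (2 ^ m)) := ⟨hM0⟩
  haveI : NeZero (pr m) := ⟨hP0⟩
  have hPN : pr m ∣ N := by
    refine Dvd.dvd.trans ?_ hN
    unfold pr primorial
    apply Finset.prod_dvd_prod_of_subset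
    intro p hp
    unfold oct at hp
    rw [mem_filter, mem_Ioc] at hp
    rw [mem_filter, mem_range]
    exact ⟨by omega, hp.2⟩
  set L := ε ^ 2 * (oct m).card / 32 with hL
  set q : ℝ := 2 ^ (D * m) * (2 * Real.exp (-L)) with hq
  have hq0 : 0 < q := by positivity
  have hlogq : Real.log (1 / q) = L - Real.log 2 * (D * m + 1) := by
    rw [one_div, Real.log_inv, hq, Real.log_mul (by positivity) (by positivity),
      Real.log_mul (by norm_num) (Real.exp_pos _).ne', Real.log_exp, Real.log_pow]
    push_cast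
    ring
  have hq1 : q < 1 := by
    by_contra hcon
    rw [not_lt] at hcon
    have h1 : Real.log (1 / q) ≤ 0 := by
      apply Real.log_nonpos (by positivity)
      rw [div_le_one hq0]
      exact hcon
    linarith
  have hP' : (0 : ℝ) < pr m := by exact_mod_cast Nat.pos_of_ne_zero hP0
  have hEv := hEVT (ZMod N) ((Fin (2 * K * 2 ^ m) → γ) × ZMod (primorial (2 ^ m))) (ZMod (pr m))
    (unif N) (fun n => (wd x (2 * K * 2 ^ m) n, rs N (primorial (2 ^ m)) n))
    (fun n => rs N (pr m) n) (fun a y => ∃ i, ε < |stat K m (G i) y.val a.1|) q hq0 hq1 ?_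
  · have h1 : info x (2 * K * 2 ^ m) (primorial (2 ^ m)) (pr m) =
        mi (unif N) (fun n => (wd x (2 * K * 2 ^ m) n, rs N (primorial (2 ^ m)) n))
          (fun n => rs N (pr m) n) := by
      unfold info
      rw [dif_neg hM0, dif_neg hP0]
    have h2 : {n : ZMod N | BadZ x ε K D m G n} =
        {n | ∃ i, ε < |stat K m (G i) (rs N (pr m) n).val (wd x (2 * K * 2 ^ m) n)|} := by
      ext n
      simp only [Set.mem_setOf_eq, BadZ, rs, ZMod.val_natCast, stat_mod]
    rw [h1, h2, ← hlogq]
    exact hEv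
  · rintro ⟨w, s⟩
    have hlaw : ∀ b, law (unif N) (fun n => rs N (pr m) n) b = 1 / pr m :=
      (hUNI.2 N (pr m) hPN).1
    simp only [hlaw]
    rw [← mul_sum, ← sum_filter, sum_const, nsmul_eq_mul, mul_one, one_div_mul_eq_div,
      div_le_iff₀ hP']
    have h1 : ((univ : Finset (ZMod (pr m))).filter
        fun y => ∃ i, ε < |stat K m (G i) y.val w|).card ≤
        ∑ i : Fin (2 ^ (D * m)), ((range (pr m)).filter fun r => ε < |stat K m (G i) r w|).card := by
      refine le_trans ?_ (card_biUnion_le)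
      apply Finset.card_le_card_of_injOn (fun y => y.val)
      · intro y hy
        rw [mem_coe, mem_filter] at hy
        obtain ⟨i, hi⟩ := hy.2
        rw [mem_coe, mem_biUnion]
        refine ⟨i, mem_univ _, ?_⟩
        rw [mem_filter, mem_range]
        exact ⟨ZMod.val_lt y, hi⟩
      · intro a _ b _ hab
        exact ZMod.val_injective _ hab
    calc (((univ : Finset (ZMod (pr m))).filter
        fun y => ∃ i, ε < |stat K m (G i) y.val w|).card : ℝ)
        ≤ ∑ i : Fin (2 ^ (D * m)),
          (((range (pr m)).filter fun r => ε < |stat K m (G i) r w|).card : ℝ) := by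
          exact_mod_cast h1
      _ ≤ ∑ i : Fin (2 ^ (D * m)), 2 * Real.exp (-L) * pr m := by
          apply sum_le_sum
          intro i _
          exact card_stat hHOE (G i) w hK (hG i) ε hε hc
      _ = q * pr m := by
          rw [sum_const, card_univ, Fintype.card_fin, nsmul_eq_mul, hq]
          push_cast
          ring

end Pool.Agent.H62.DE
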