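import Pool.Agent.H93.DE.Targets

/-!
# DEC: the decoupling over the integers with logarithmic weights
-/

set_option autoImplicit false

open Finset Pool.Agent.H18.MR Pool.Agent.H93.DE

namespace Pool.Agent.H62.DE.DECx

theorem harm (n : ℕ) : ∑ i ∈ range n, 1 / ((i : ℝ) + 1) ≤ 1 + Real.log n := by
  have h := harmonic_le_one_add_log n
  unfold harmonic at h
  push_cast at h
  simpa [one_div] using h

theorem sum_range_eq (N : ℕ) : ∑ i ∈ range N, 1 / ((i : ℝ) + 1) = ∑ n ∈ Icc 1 N, (1 : ℝ) / n := by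
  induction N with
  | zero => simp
  | succ N ih =>
    rw [sum_range_succ, ih, Finset.sum_Icc_succ_top (by omega)]
    push_cast
    rfl

theorem sum_Icc_le (T : Finset ℕ) (N : ℕ) (hT : T ⊆ Icc 1 N) :
    ∑ n ∈ T, (1 : ℝ) / n ≤ 1 + Real.log N := by
  refine le_trans ?_ (harm N)
  rw [sum_range_eq]
  exact sum_le_sum_of_subset_of_nonneg hT fun _ _ _ => by positivity

/-- the partition into blocks of length `N` -/
theorem blocks (T : Finset ℕ) (X N : ℕ) (hN : 0 < N) (hT : T ⊆ Icc 1 X) (B : ℕ → ℝ)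
    (hB : ∀ k, 1 ≤ k → ((T.filter fun n => n / N = k).card : ℝ) ≤ N * B k) :
    ∑ n ∈ T, (1 : ℝ) / n ≤ (1 + Real.log N) + ∑ k ∈ range X, B (k + 1) / ((k : ℝ) + 1) := by
  classical
  have hN' : (0 : ℝ) < N := by exact_mod_cast hN
  have h1 : ∑ n ∈ T, (1 : ℝ) / n =
      ∑ k ∈ range (X + 1), ∑ n ∈ T.filter (fun n => n / N = k), (1 : ℝ) / n := by
    rw [Finset.sum_fiberwise_of_maps_to]
    intro n hn
    have := mem_Icc.1 (hT hn)
    rw [mem_range]
    have := Nat.div_le_self n N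
    omega
  rw [h1, Finset.sum_range_succ', add_comm]
  apply add_le_add
  · apply sum_Icc_le
    intro n hn
    rw [mem_filter] at hn
    have h2 := mem_Icc.1 (hT hn.1)
    have h3 : n < N := by
      rcases Nat.div_eq_zero_iff.1 hn.2 with h | h
      · omega
      · exact h
    rw [mem_Icc]
    omega
  · apply sum_le_sum
    intro k _
    have hk : (0 : ℝ) < (k : ℝ) + 1 := by positivity
    calc ∑ n ∈ T.filter (fun n => n / N = k + 1), (1 : ℝ) / n
        ≤ ∑ n ∈ T.filter (fun n => n / N = k + 1), 1 / (N * ((k : ℝ) + 1)) := by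
          apply sum_le_sum
          intro n hn
          rw [mem_filter] at hn
          apply one_div_le_one_div_of_le (by positivity)
          have h2 : N * (k + 1) ≤ n := by
            rw [← hn.2, mul_comm]
            exact Nat.div_mul_le_self n N
          exact_mod_cast h2
      _ = ((T.filter fun n => n / N = k + 1).card : ℝ) * (1 / (N * ((k : ℝ) + 1))) := by
          rw [sum_const, nsmul_eq_mul]
      _ ≤ (N * B (k + 1)) * (1 / (N * ((k : ℝ) + 1))) :=
          mul_le_mul_of_nonneg_right (hB (k + 1) (by omega)) (by positivity)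
      _ = B (k + 1) / ((k : ℝ) + 1) := by field_simp

theorem fld_shift {A : ℕ} (S N' k : ℕ) [NeZero S] (c : ℕ → Fin A) (r : ℕ) :
    fld S (fun i => c (k * N' + i)) r = fld S c (k * (N' * S) + r) := by
  unfold fld
  have hS : 0 < S := Nat.pos_of_ne_zero (NeZero.ne S)
  have h1 : (k * (N' * S) + r) / S = k * N' + r / S := by
    rw [show k * (N' * S) + r = r + (k * N') * S by ring, Nat.add_mul_div_right _ _ hS]
    ring
  have h2 : Fin.ofNat S r = Fin.ofNat S (k * (N' * S) + r) := by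
    apply Fin.ext
    simp only [Fin.ofNat]
    rw [show k * (N' * S) + r = r + (k * N') * S by ring, Nat.add_mul_mod_self_right]
  rw [h1, h2]

theorem dvd_shift (N k r j p : ℕ) (h : p ∣ N) : p ∣ k * N + r + j ↔ p ∣ r + j := by
  rw [add_assoc]
  exact (Nat.dvd_add_right (h.mul_left k))

/-- a bad place of the integers is bad in the cyclic group -/
theorem bad_imp {A : ℕ} (S N' k N : ℕ) [NeZero S] [NeZero N] (hN : N = N' * S) (c : ℕ → Fin A)
    (ε : ℝ) (K D m : ℕ)
    (G : Fin (2 ^ (D * m)) → ℕ → ℕ → (Fin (2 * K * 2 ^ m) → Fin A × Fin S) → ℝ)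
    (hp : ∀ p ∈ oct m, p ∣ N) (r : ℕ) (hr : r + 2 * K * 2 ^ m ≤ N) (hrN : r < N)
    (h : Bad S c ε K D m G (k * N + r)) :
    BadZ (fun z : ZMod N => fld S (fun i => c (k * N' + i)) z.val) ε K D m G (r : ZMod N) := by
  obtain ⟨i, hi⟩ := h
  refine ⟨i, ?_⟩
  have hval : ((r : ZMod N)).val = r := ZMod.val_cast_of_lt hrN
  have hw : wd (fun z : ZMod N => fld S (fun i => c (k * N' + i)) z.val) (2 * K * 2 ^ m)
      (r : ZMod N) = fun t : Fin (2 * K * 2 ^ m) => fld S c (k * N + r + (t : ℕ)) := by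
    funext t
    unfold wd
    have ht : (t : ℕ) < 2 * K * 2 ^ m := t.2
    have h1 : ((r : ZMod N) + ((t : ℕ) : ZMod N)).val = r + t := by
      rw [← Nat.cast_add]
      exact ZMod.val_cast_of_lt (by omega)
    simp only [h1]
    rw [fld_shift, ← hN, add_assoc]
  rw [hw, hval]
  refine lt_of_lt_of_eq hi ?_
  congr 1
  unfold stat
  congr 1
  apply sum_congr rfl
  intro p hpp
  apply sum_congr rfl
  intro j _
  have h2 := dvd_shift N k r j p (hp p hpp)
  by_cases h3 : p ∣ r + j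
  · rw [if_pos h3, if_pos (h2.2 h3)]
  · rw [if_neg h3, if_neg (fun h4 => h3 (h2.1 h4))]

open Classical in
/-- the number of bad places in a block -/
theorem block_card {A : ℕ} (S N' k X N : ℕ) [NeZero S] [NeZero N] (hN : N = N' * S)
    (c : ℕ → Fin A) (ε : ℝ) (K D m : ℕ)
    (G : Fin (2 ^ (D * m)) → ℕ → ℕ → (Fin (2 * K * 2 ^ m) → Fin A × Fin S) → ℝ)
    (hp : ∀ p ∈ oct m, p ∣ N) (q : ℕ) (hq : 0 < q) (hqN : 2 * K * 2 ^ m * q ≤ N) :
    ((((Icc 1 X).filter fun n => Bad S c ε K D m G n).filter fun n => n / N = k).card : ℝ) ≤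
      (N : ℝ) * ((unif N).P {n | BadZ (fun z : ZMod N =>
        fld S (fun i => c (k * N' + i)) z.val) ε K D m G n} + 1 / q) := by
  have hNpos : 0 < N := Nat.pos_of_ne_zero (NeZero.ne N)
  have hN' : (0 : ℝ) < N := by exact_mod_cast hNpos
  set Z := (univ : Finset (ZMod N)).filter (fun z => z ∈ {n | BadZ (fun z : ZMod N =>
    fld S (fun i => c (k * N' + i)) z.val) ε K D m G n}) with hZ
  have hP : (unif N).P {n | BadZ (fun z : ZMod N => fld S (fun i => c (k * N' + i)) z.val)
      ε K D m G n} = (Z.card : ℝ) / N := rfl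
  rw [hP]
  have h1 : (((Icc 1 X).filter fun n => Bad S c ε K D m G n).filter
      fun n => n / N = k).card ≤
      (Ico (N - 2 * K * 2 ^ m) N ∪ Z.image fun z => z.val).card := by
    apply Finset.card_le_card_of_injOn (fun n => n % N)
    · intro n hn
      rw [mem_coe, mem_filter, mem_filter] at hn
      obtain ⟨⟨-, hbad⟩, hk⟩ := hn
      have hr : n % N < N := Nat.mod_lt _ hNpos
      have hn' : n = k * N + n % N := by
        have := Nat.div_add_mod n N
        rw [hk, mul_comm] at this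
        exact this.symm
      rw [mem_coe, mem_union, mem_Ico, mem_image]
      by_cases h2 : n % N + 2 * K * 2 ^ m ≤ N
      · right
        refine ⟨((n % N : ℕ) : ZMod N), ?_, ZMod.val_cast_of_lt hr⟩
        rw [hZ, mem_filter]
        refine ⟨mem_univ _, ?_⟩
        rw [hn'] at hbad
        exact bad_imp S N' k N hN c ε K D m G hp (n % N) h2 hr hbad
      · left
        have h9 : ∀ r L N : ℕ, r < N → ¬ (r + L ≤ N) → N - L ≤ r ∧ r < N := by
          intro r L N _ _
          omega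
        exact h9 _ _ _ hr h2
    · intro a ha b hb hab
      rw [mem_coe, mem_filter] at ha hb
      have h3 := Nat.div_add_mod a N
      have h4 := Nat.div_add_mod b N
      simp only at hab
      rw [← h3, ← h4, ha.2, hb.2, hab]
  have h2 : (Ico (N - 2 * K * 2 ^ m) N ∪ Z.image fun z => z.val).card ≤
      2 * K * 2 ^ m + Z.card := by
    refine (card_union_le _ _).trans (add_le_add ?_ card_image_le)
    rw [Nat.card_Ico]
    omega
  have h3 : ((((Icc 1 X).filter fun n => Bad S c ε K D m G n).filter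
      fun n => n / N = k).card : ℝ) ≤ ((2 * K * 2 ^ m : ℕ) : ℝ) + Z.card := by
    exact_mod_cast h1.trans h2
  refine h3.trans ?_
  have h4 : ((2 * K * 2 ^ m : ℕ) : ℝ) ≤ N * (1 / q) := by
    have h5 : ((2 * K * 2 ^ m : ℕ) : ℝ) * q ≤ N := by exact_mod_cast hqN
    have hq' : (0 : ℝ) < q := by exact_mod_cast hq
    rw [mul_one_div, le_div_iff₀ hq']
    exact h5
  have h5 : (N : ℝ) * ((Z.card : ℝ) / N + 1 / q) = N * (1 / q) + Z.card := by
    field_simp
    ring
  rw [h5]
  linarith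

theorem P_nonneg {N : ℕ} [NeZero N] (A : Set (ZMod N)) : 0 ≤ (unif N).P A := (unif N).nonneg A

theorem log_primorial (M : ℕ) : Real.log (primorial (2 ^ M)) ≤ 2 * 2 ^ M := by
  have h1 : (primorial (2 ^ M) : ℝ) ≤ 4 ^ (2 ^ M) := by exact_mod_cast primorial_le_four_pow _
  have h2 : (0 : ℝ) < primorial (2 ^ M) := by exact_mod_cast primorial_pos _
  have h3 := Real.log_le_log h2 h1
  rw [Real.log_pow] at h3
  have h4 : Real.log 4 ≤ 2 := by
    rw [show (4 : ℝ) = 2 ^ 2 by norm_num, Real.log_pow]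
    have := Real.log_two_lt_d9
    push_cast
    linarith
  push_cast at h3
  have h5 : (0 : ℝ) < 2 ^ M := by positivity
  nlinarith

end Pool.Agent.H62.DE.DECx

namespace Pool.Agent.H62.DE

open DECx

/-- DEC -/
theorem pf_DEC (hCYC : T_CYC) : T_DEC := by
  classical
  intro ε K D hε hK
  obtain ⟨C, m₀, hC, hcyc⟩ := hCYC ε K D hε hK
  refine ⟨ε / (16 * C), ε / 64, by positivity, by positivity, ?_⟩
  intro S A _ hA
  have hSpos : 0 < S := Nat.pos_of_ne_zero (NeZero.ne S)
  have hS' : (0 : ℝ) < S := by exact_mod_cast hSpos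
  set W : ℝ := Real.log S + 2 * Real.log A + 1 with hW
  -- the first octave
  obtain ⟨m₁, hm₁, hm₁W⟩ : ∃ m₁ : ℕ, m₀ ≤ m₁ ∧ C * (W / 2 ^ m₁) ≤ ε / 16 := by
    obtain ⟨n, hn⟩ := pow_unbounded_of_one_lt (16 * C * W / ε) (by norm_num : (1 : ℝ) < 2)
    refine ⟨max m₀ n, le_max_left _ _, ?_⟩
    have h1 : (2 : ℝ) ^ n ≤ 2 ^ (max m₀ n) := pow_le_pow_right₀ (by norm_num) (le_max_right _ _)
    have h2 : 16 * C * W / ε < 2 ^ (max m₀ n) := hn.trans_le h1
    rw [div_lt_iff₀ hε] at h2
    rw [← mul_div_assoc, div_le_iff₀ (by positivity)]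
    linarith
  obtain ⟨q₀, hq₀⟩ := exists_nat_ge (4 / ε)
  have hq₀pos : 0 < q₀ := by
    have : (0 : ℝ) < q₀ := lt_of_lt_of_le (by positivity) hq₀
    exact_mod_cast this
  have hq₀' : (1 : ℝ) / q₀ ≤ ε / 4 := by
    have h1 : (0 : ℝ) < q₀ := by exact_mod_cast hq₀pos
    rw [div_le_iff₀ h1]
    rw [div_le_iff₀ hε] at hq₀
    linarith
  set R : ℝ := Real.log ((2 * K * S * q₀ : ℕ) : ℝ) with hR
  refine ⟨m₁, ⌈Real.exp (max 1 (max (4 / ε) (8 * R / ε)))⌉₊, fun X hX M hM c G hG => ?_⟩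
  -- the size of `X`
  have hX1 : Real.exp (max 1 (max (4 / ε) (8 * R / ε))) ≤ X :=
    (Nat.le_ceil _).trans (by exact_mod_cast hX)
  have hXpos : (0 : ℝ) < X := (Real.exp_pos _).trans_le hX1
  have hlX : max 1 (max (4 / ε) (8 * R / ε)) ≤ Real.log X := by
    rw [Real.le_log_iff_exp_le hXpos]
    exact hX1
  have hlX1 : 1 ≤ Real.log X := (le_max_left _ _).trans hlX
  have hlX2 : 4 / ε ≤ Real.log X := (le_max_left _ _).trans ((le_max_right _ _).trans hlX)
  have hlX3 : 8 * R / ε ≤ Real.log X := (le_max_right _ _).trans ((le_max_right _ _).trans hlX)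
  rw [div_le_iff₀ hε] at hlX2 hlX3
  by_cases hMm : M ≤ m₁
  · refine ⟨fun _ => 0, fun _ => le_rfl, ?_, fun m hm => ?_⟩
    · rw [Ico_eq_empty_of_le hMm]
      simp only [sum_empty]
      exact hε.le
    · rw [Ico_eq_empty_of_le hMm] at hm
      simp at hm
  rw [not_le] at hMm
  set N' : ℕ := primorial (2 ^ M) * (2 * K * 2 ^ M) * q₀ with hN'
  set N : ℕ := N' * S with hN
  have hpp : 0 < primorial (2 ^ M) := primorial_pos _
  have hN'pos : 0 < N' := by positivity
  have hNpos : 0 < N := by positivity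
  haveI : NeZero N := ⟨hNpos.ne'⟩
  have hprN : primorial (2 ^ M) ∣ N := by
    rw [hN, hN', mul_assoc, mul_assoc]
    exact Dvd.intro _ rfl
  have hSN : S ∣ N := Dvd.intro_left _ rfl
  have hoct : ∀ m ∈ Ico m₁ M, ∀ p ∈ oct m, p ∣ N := by
    intro m hm p hp
    refine Dvd.dvd.trans ?_ hprN
    unfold oct at hp
    rw [mem_filter, mem_Ioc] at hp
    rw [mem_Ico] at hm
    rw [primorial]
    apply Finset.dvd_prod_of_mem
    rw [mem_filter, mem_range]
    refine ⟨?_, hp.2⟩
    have : 2 ^ (m + 1) ≤ 2 ^ M := Nat.pow_le_pow_right (by norm_num) (by omega)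
    omega
  let b : ℕ → ℕ → ℝ := fun m k => (unif N).P {n | BadZ (fun z : ZMod N =>
    fld S (fun i => c (k * N' + i)) z.val) ε K D m (G m) n}
  have hb0 : ∀ m k, 0 ≤ b m k := fun m k => P_nonneg _
  have hbsum : ∀ k, ∑ m ∈ Ico m₁ M, b m k / m ≤ ε / 8 := by
    intro k
    have h1 := hcyc N S A m₁ M (fun i => c (k * N' + i)) G hm₁ hMm.le hprN hSN hG
    refine h1.trans ?_
    rw [mul_add]
    have h2 : C * (Real.log A / S) ≤ ε / 16 := by
      rw [← mul_div_assoc, div_le_iff₀ hS']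
      calc C * Real.log A ≤ C * (ε / (16 * C) * S) := mul_le_mul_of_nonneg_left hA hC.le
        _ = ε / 16 * S := by field_simp
    linarith
  -- the weights
  refine ⟨fun m => (∑ k ∈ range X, b m (k + 1) / ((k : ℝ) + 1)) / Real.log X, fun m => ?_, ?_, ?_⟩
  · apply div_nonneg _ (by linarith)
    exact sum_nonneg fun k _ => div_nonneg (hb0 _ _) (by positivity)
  · have h1 : ∑ m ∈ Ico m₁ M, (∑ k ∈ range X, b m (k + 1) / ((k : ℝ) + 1)) / Real.log X / m =
        (∑ k ∈ range X, (∑ m ∈ Ico m₁ M, b m (k + 1) / m) * (1 / ((k : ℝ) + 1))) /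
          Real.log X := by
      simp only [sum_mul, sum_div]
      rw [sum_comm]
      apply sum_congr rfl
      intro k _
      apply sum_congr rfl
      intro m _
      ring
    rw [h1, div_le_iff₀ (by linarith)]
    calc ∑ k ∈ range X, (∑ m ∈ Ico m₁ M, b m (k + 1) / m) * (1 / ((k : ℝ) + 1))
        ≤ ∑ k ∈ range X, (ε / 8) * (1 / ((k : ℝ) + 1)) := by
          apply sum_le_sum
          intro k _
          exact mul_le_mul_of_nonneg_right (hbsum (k + 1)) (by positivity)
      _ = (ε / 8) * ∑ k ∈ range X, 1 / ((k : ℝ) + 1) := by rw [mul_sum]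
      _ ≤ (ε / 8) * (1 + Real.log X) := mul_le_mul_of_nonneg_left (harm X) (by positivity)
      _ ≤ ε * Real.log X := by nlinarith
  · intro m hm
    have hm' := mem_Ico.1 hm
    have hqN : 2 * K * 2 ^ m * q₀ ≤ N := by
      have h1 : 2 ^ m ≤ 2 ^ M := Nat.pow_le_pow_right (by norm_num) hm'.2.le
      calc 2 * K * 2 ^ m * q₀ ≤ 2 * K * 2 ^ M * q₀ := by gcongr
        _ = 1 * (2 * K * 2 ^ M) * q₀ * 1 := by ring
        _ ≤ primorial (2 ^ M) * (2 * K * 2 ^ M) * q₀ * S := by gcongr <;> omega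
    have hblock := blocks ((Icc 1 X).filter fun n => Bad S c ε K D m (G m) n) X N hNpos
      (filter_subset _ _) (fun k => b m k + 1 / q₀) (fun k _ => by
        exact block_card S N' k X N hN c ε K D m (G m) (hoct m hm) q₀ hq₀pos hqN)
    refine hblock.trans ?_
    have h2 : ∑ k ∈ range X, (b m (k + 1) + 1 / q₀) / ((k : ℝ) + 1) =
        ∑ k ∈ range X, b m (k + 1) / ((k : ℝ) + 1) +
          (1 / q₀) * ∑ k ∈ range X, 1 / ((k : ℝ) + 1) := by
      rw [mul_sum, ← sum_add_distrib]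
      apply sum_congr rfl
      intro k _
      ring
    rw [h2]
    have h3 : (1 / (q₀ : ℝ)) * ∑ k ∈ range X, 1 / ((k : ℝ) + 1) ≤ (ε / 4) * (1 + Real.log X) :=
      mul_le_mul hq₀' (harm X) (sum_nonneg fun _ _ => by positivity) (by positivity)
    -- the size of `N`
    have h4 : Real.log N ≤ 3 * 2 ^ M + R := by
      have e1 : (N : ℝ) = (primorial (2 ^ M) : ℝ) * (2 ^ M * ((2 * K * S * q₀ : ℕ) : ℝ)) := by
        rw [hN, hN']
        push_cast
        ring
      have e2 : (0 : ℝ) < primorial (2 ^ M) := by exact_mod_cast hpp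
      have e3 : (0 : ℝ) < ((2 * K * S * q₀ : ℕ) : ℝ) := by
        have : 0 < 2 * K * S * q₀ := by positivity
        exact_mod_cast this
      rw [e1, Real.log_mul e2.ne' (by positivity), Real.log_mul (by positivity) e3.ne',
        Real.log_pow]
      have e4 := log_primorial M
      have e5 : (M : ℝ) * Real.log 2 ≤ 2 ^ M := by
        have e6 : (M : ℝ) ≤ 2 ^ M := by exact_mod_cast Nat.lt_two_pow_self.le
        have e7 : Real.log 2 ≤ 1 := by linarith [Real.log_two_lt_d9]
        calc (M : ℝ) * Real.log 2 ≤ M * 1 := mul_le_mul_of_nonneg_left e7 (Nat.cast_nonneg _)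
          _ ≤ 2 ^ M := by rw [mul_one]; exact e6
      linarith
    have h5 : (∑ k ∈ range X, b m (k + 1) / ((k : ℝ) + 1)) =
        (∑ k ∈ range X, b m (k + 1) / ((k : ℝ) + 1)) / Real.log X * Real.log X := by
      field_simp
    rw [add_mul, ← h5]
    nlinarith

end Pool.Agent.H62.DE
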